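import Mathlib
import Pool.Agent.H46.Coeff
import Pool.Agent.H46.Blk.Purity

set_option autoImplicit false

namespace Pool.Agent.H46.Blk

open Filter Topology NumberField Module Polynomial

variable {K : Type*} [Field K] [NumberField K]

/-- A primitive block in terms of matrices is a primitive block in terms of embeddings. -/
theorem prim_aux [DecidableEq (K →+* ℂ)] {d : ℕ} (Ψ : K →ₐ[ℚ] Matrix (Fin d) (Fin d) ℚ)
    (g : Matrix (Fin d) (Fin d) ℝ) (hg : g.det ≠ 0) (I : Finset (Fin d)) (v0 : Fin d → ℚ)
    (hsurj : ∀ w : Fin d → ℚ, ∃ x : K, (Ψ x).mulVec v0 = w)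
    (a : Fin d → (K →+* ℂ) → ℂ)
    (ha : ∀ i x, lf K (a i) x = ((∑ j, g i j * (((Ψ x).mulVec v0 j : ℚ) : ℝ) : ℝ) : ℂ))
    (hli : LinearIndependent ℂ a) (S : Finset (K →+* ℂ))
    (hS : ∀ σ, σ ∈ S ↔ ∃ i ∈ I, a i σ ≠ 0)
    (hSc : ∀ σ, σ ∈ S → ComplexEmbedding.conjugate σ ∈ S)
    (hsing : ∀ σ ∈ S, Pi.single σ (1 : ℂ) ∈ Submodule.span ℂ (a '' (I : Set (Fin d))))
    (u : K) (hu : ∀ φ ψ : K →+* ℂ, φ u = ψ u → φ ∈ S → ψ ∈ S)
    (hprim : ∀ (u : K) (q : ℝ[X]), (∀ v : Fin d → ℝ, v ∈ Submodule.span ℝ (g '' (I : Set (Fin d))) ↔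
      Matrix.vecMul v (aeval ((Ψ u).map (Rat.cast : ℚ → ℝ)) q) = 0) →
      Function.Injective (fun σ : K →+* ℂ => σ u)) :
    Function.Injective (fun φ : K →+* ℂ => φ u) := by
  classical
  have hgu : IsUnit g.det := isUnit_iff_ne_zero.mpr hg
  have hv : ∀ v : Fin d → ℝ, Matrix.vecMul (Matrix.vecMul v g⁻¹) g = v := by
    intro v
    rw [Matrix.vecMul_vecMul, Matrix.nonsing_inv_mul _ hgu, Matrix.vecMul_one]
  -- the coefficient map
  let L : (Fin d → ℝ) → ((K →+* ℂ) → ℂ) := fun v =>
    ∑ k, ((Matrix.vecMul v g⁻¹ k : ℝ) : ℂ) • a k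
  have hLf : ∀ v x, lf K (L v) x = ((∑ j, v j * (((Ψ x).mulVec v0 j : ℚ) : ℝ) : ℝ) : ℂ) := by
    intro v x
    simp only [L]
    rw [lf_sum]
    simp only [ha]
    conv_rhs => rw [← hv v]
    generalize Matrix.vecMul v g⁻¹ = c
    simp only [Matrix.vecMul, dotProduct]
    push_cast
    simp only [Finset.mul_sum, Finset.sum_mul]
    rw [Finset.sum_comm]
    apply Finset.sum_congr rfl
    intro j _
    apply Finset.sum_congr rfl
    intro k _
    ring
  have hLadd : ∀ v w, L (v + w) = L v + L w := by
    intro v w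
    apply lf_ext
    intro x
    have h1 : lf K (L v + L w) x = lf K (L v) x + lf K (L w) x := by
      simp only [lf, Pi.add_apply, add_mul, Finset.sum_add_distrib]
    rw [h1, hLf, hLf, hLf, ← Complex.ofReal_add, ← Finset.sum_add_distrib]
    congr 1
    apply Finset.sum_congr rfl
    intro j _
    rw [Pi.add_apply]
    ring
  have hLsmul : ∀ (r : ℝ) v, L (r • v) = (r : ℂ) • L v := by
    intro r v
    apply lf_ext
    intro x
    have h1 : lf K ((r : ℂ) • L v) x = (r : ℂ) * lf K (L v) x := by
      simp only [lf, Pi.smul_apply, smul_eq_mul, Finset.mul_sum, mul_assoc]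
    rw [h1, hLf, hLf, ← Complex.ofReal_mul, Finset.mul_sum]
    congr 1
    apply Finset.sum_congr rfl
    intro j _
    rw [Pi.smul_apply, smul_eq_mul]
    ring
  have hLg : ∀ i, L (g i) = a i := by
    intro i
    apply lf_ext
    intro x
    rw [hLf, ha]
  have hL0 : ∀ v, L v = 0 → v = 0 := by
    intro v h
    have h1 : ∀ x : K, ∑ j, v j * (((Ψ x).mulVec v0 j : ℚ) : ℝ) = 0 := by
      intro x
      have h2 := hLf v x
      rw [h] at h2
      have h3 : lf K (0 : (K →+* ℂ) → ℂ) x = 0 := by simp [lf]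
      rw [h3] at h2
      exact_mod_cast h2.symm
    funext j
    obtain ⟨x, hx⟩ := hsurj (Pi.single j 1)
    have h2 := h1 x
    rw [hx, Finset.sum_eq_single j] at h2
    · simpa using h2
    · intro l _ hl
      simp [Pi.single_eq_of_ne hl]
    · intro h
      exact absurd (Finset.mem_univ j) h
  set M : Matrix (Fin d) (Fin d) ℝ := (Ψ u).map (Rat.cast : ℚ → ℝ) with hM
  have hLM : ∀ v, L (Matrix.vecMul v M) = (fun φ : K →+* ℂ => φ u) * L v := by
    intro v
    apply lf_ext
    intro x
    have h3 : lf K ((fun σ : K →+* ℂ => σ u) * L v) x = lf K (L v) (u * x) := by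
      simp only [lf, Pi.mul_apply, map_mul]
      apply Finset.sum_congr rfl
      intro σ _
      ring
    rw [h3, hLf, hLf, map_mul, ← Matrix.mulVec_mulVec]
    congr 1
    simp only [Matrix.vecMul, dotProduct, hM, Matrix.map_apply, Finset.sum_mul]
    have h4 : ∀ i, (((Ψ u).mulVec ((Ψ x).mulVec v0) i : ℚ) : ℝ)
        = ∑ j, ((Ψ u i j : ℚ) : ℝ) * (((Ψ x).mulVec v0 j : ℚ) : ℝ) := by
      intro i
      rw [Matrix.mulVec, dotProduct]
      push_cast
      rfl
    simp only [h4, Finset.mul_sum]
    rw [Finset.sum_comm]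
    apply Finset.sum_congr rfl
    intro j _
    apply Finset.sum_congr rfl
    intro k _
    ring
  have hLq : ∀ (q : ℝ[X]) v, L (Matrix.vecMul v (aeval M q))
      = (fun φ : K →+* ℂ => aeval (φ u) q) * L v := by
    intro q
    induction q using Polynomial.induction_on with
    | C r =>
      intro v
      have h1 : Matrix.vecMul v (aeval M (C r)) = r • v := by
        rw [aeval_C, Algebra.algebraMap_eq_smul_one, Matrix.vecMul_smul, Matrix.vecMul_one]
      rw [h1, hLsmul]
      funext φ
      simp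
    | add p q hp hq =>
      intro v
      rw [map_add, Matrix.vecMul_add, hLadd, hp, hq]
      funext φ
      simp [add_mul]
    | monomial n r ih =>
      intro v
      have h1 : aeval M (C r * X ^ (n + 1)) = aeval M (C r * X ^ n) * M := by
        rw [pow_succ, ← mul_assoc, map_mul, aeval_X]
      rw [h1, ← Matrix.vecMul_vecMul, hLM, ih]
      funext φ
      simp only [Pi.mul_apply, map_mul, aeval_C, map_pow, aeval_X]
      ring
  -- the polynomial
  let q : ℝ[X] := ∏ σ ∈ S, (X ^ 2 - C (2 * (σ u).re) * X + C (Complex.normSq (σ u)))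
  have hq : ∀ φ : K →+* ℂ, aeval (φ u) q = 0 ↔ φ ∈ S := by
    intro φ
    have h1 : aeval (φ u) q
        = ∏ σ ∈ S, ((φ u - σ u) * (φ u - (ComplexEmbedding.conjugate σ) u)) := by
      simp only [q, map_prod]
      apply Finset.prod_congr rfl
      intro σ _
      rw [map_add, map_sub, map_mul, map_pow, aeval_X, aeval_C, aeval_C,
        ComplexEmbedding.conjugate_coe_eq]
      have h2 : (algebraMap ℝ ℂ) (2 * (σ u).re) = σ u + (starRingEnd ℂ) (σ u) := by
        rw [Complex.add_conj]
        rfl
      have h3 : (algebraMap ℝ ℂ) (Complex.normSq (σ u)) = σ u * (starRingEnd ℂ) (σ u) := by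
        rw [Complex.mul_conj]
        rfl
      rw [h2, h3]
      ring
    rw [h1, Finset.prod_eq_zero_iff]
    constructor
    · rintro ⟨σ, hσ, h⟩
      rcases mul_eq_zero.mp h with h | h
      · exact hu σ φ (sub_eq_zero.mp h).symm hσ
      · exact hu _ φ (sub_eq_zero.mp h).symm (hSc σ hσ)
    · intro h
      exact ⟨φ, h, by simp⟩
  have hker : ∀ v : Fin d → ℝ, Matrix.vecMul v (aeval M q) = 0 ↔ ∀ φ, φ ∉ S → L v φ = 0 := by
    intro v
    constructor
    · intro h φ hφ
      have h1 := hLq q v
      rw [h] at h1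
      have h2 : L 0 = 0 := by
        have := hLsmul 0 0
        simpa using this
      rw [h2] at h1
      have h3 := congr_fun h1 φ
      rw [Pi.zero_apply, Pi.mul_apply] at h3
      rcases mul_eq_zero.mp h3.symm with h4 | h4
      · exact absurd ((hq φ).mp h4) hφ
      · exact h4
    · intro h
      apply hL0
      rw [hLq]
      funext φ
      rw [Pi.mul_apply, Pi.zero_apply]
      by_cases hφ : φ ∈ S
      · rw [(hq φ).mpr hφ, zero_mul]
      · rw [h φ hφ, mul_zero]
  apply hprim u q
  intro v
  rw [hker]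
  constructor
  · intro hvI
    induction hvI using Submodule.span_induction with
    | mem v hv =>
      obtain ⟨i, hi, rfl⟩ := hv
      intro φ hφ
      rw [hLg]
      by_contra h
      exact hφ ((hS φ).mpr ⟨i, hi, h⟩)
    | zero =>
      intro φ _
      have h2 : L 0 = 0 := by
        have := hLsmul 0 0
        simpa using this
      rw [h2]
      rfl
    | add v w _ _ h h' =>
      intro φ hφ
      rw [hLadd, Pi.add_apply, h φ hφ, h' φ hφ, add_zero]
    | smul r v _ h =>
      intro φ hφ
      rw [hLsmul, Pi.smul_apply, h φ hφ, smul_zero]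
  · intro h
    have h1 : L v ∈ Submodule.span ℂ (a '' (I : Set (Fin d))) := by
      have h2 : L v = ∑ σ ∈ S, L v σ • Pi.single σ (1 : ℂ) := by
        funext φ
        rw [Finset.sum_apply]
        by_cases hφ : φ ∈ S
        · rw [Finset.sum_eq_single φ]
          · simp
          · intro τ _ hτ
            simp [Pi.single_eq_of_ne (Ne.symm hτ)]
          · intro h'
            exact absurd hφ h'
        · rw [h φ hφ]
          symm
          apply Finset.sum_eq_zero
          intro τ hτ
          have : φ ≠ τ := fun h' => hφ (h' ▸ hτ)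
          simp [Pi.single_eq_of_ne this]
      rw [h2]
      apply Submodule.sum_mem
      intro σ hσ
      exact Submodule.smul_mem _ _ (hsing σ hσ)
    rw [Submodule.mem_span_image_finset_iff_exists_fun] at h1
    obtain ⟨r, hr⟩ := h1
    -- the coefficients outside `I` vanish
    have h3 : ∀ k, k ∉ I → Matrix.vecMul v g⁻¹ k = 0 := by
      intro k hk
      have h4 := Fintype.linearIndependent_iff.mp hli
        (fun i => ((Matrix.vecMul v g⁻¹ i : ℝ) : ℂ) - if h : i ∈ I then r ⟨i, h⟩ else 0) ?_ k
      · simp only [dif_neg hk, sub_zero] at h4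
        exact_mod_cast h4
      · simp only [sub_smul, Finset.sum_sub_distrib]
        rw [sub_eq_zero]
        change L v = _
        rw [← hr]
        have h6 : ∑ i : I, r i • a i.1
            = ∑ i : I, (fun i : Fin d => (if h : i ∈ I then r ⟨i, h⟩ else 0) • a i) i.1 := by
          apply Finset.sum_congr rfl
          intro i _
          simp only [dif_pos i.2]
        rw [h6, Finset.sum_coe_sort I (fun i : Fin d => (if h : i ∈ I then r ⟨i, h⟩ else 0) • a i)]
        apply Finset.sum_subset (Finset.subset_univ I)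
        intro i _ hi
        rw [dif_neg hi, zero_smul]
    have h5 : v = ∑ k, Matrix.vecMul v g⁻¹ k • g k := by
      conv_lhs => rw [← hv v]
      funext j
      simp only [Matrix.vecMul, dotProduct, Finset.sum_apply, Pi.smul_apply, smul_eq_mul]
    rw [h5]
    apply Submodule.sum_mem
    intro k _
    by_cases hk : k ∈ I
    · exact Submodule.smul_mem _ _ (Submodule.subset_span ⟨k, hk, rfl⟩)
    · rw [h3 k hk, zero_smul]
      exact Submodule.zero_mem _

end Pool.Agent.H46.Blk
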