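import Mathlib
import Pool.Agent.H46.Coeff
import Pool.Agent.H46.MainK
import Pool.Agent.H46.Blk.Prim

set_option autoImplicit false

namespace Pool.Agent.H46.Blk

open Filter Topology NumberField Module Polynomial

variable {K : Type*} [Field K] [NumberField K]

theorem main_K (d : ℕ) (hd : 3 ≤ d) (hK : finrank ℚ K = d)
    (Ψ : K →ₐ[ℚ] Matrix (Fin d) (Fin d) ℚ) (g : Matrix (Fin d) (Fin d) ℝ) (hg : g.det ≠ 0)
    (I : Finset (Fin d)) (hI0 : I.Nonempty) (hI1 : I ≠ Finset.univ) (θ : K)
    (hprim : ∀ (u : K) (q : ℝ[X]), (∀ v : Fin d → ℝ, v ∈ Submodule.span ℝ (g '' (I : Set (Fin d))) ↔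
      Matrix.vecMul v (aeval ((Ψ u).map (Rat.cast : ℚ → ℝ)) q) = 0) →
      Function.Injective (fun σ : K →+* ℂ => σ u))
    (hθ : Function.Injective (fun σ : K →+* ℂ => σ θ))
    (hinv : ∀ i ∈ I, Matrix.vecMul (g i) ((Ψ θ).map (Rat.cast : ℚ → ℝ))
      ∈ Submodule.span ℝ (g '' (I : Set (Fin d))))
    (ε : ℝ) (hε : 0 < ε) (hlow : ∀ x : Fin d → ℤ, x ≠ 0 → ε ≤ |∏ i, ∑ j, g i j * (x j : ℝ)|) :
    ∃ lam : Fin d → ℝ, Function.Injective lam ∧
      ∀ i, Matrix.vecMul (g i) ((Ψ θ).map (Rat.cast : ℚ → ℝ)) = lam i • g i := by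
  classical
  -- the module structure of `ℚ^d`
  let v0 : Fin d → ℚ := Pi.single ⟨0, by omega⟩ 1
  have hv0 : v0 ≠ 0 := by
    intro h
    have := congr_fun h ⟨0, by omega⟩
    simp [v0] at this
  let vec : K →ₗ[ℚ] (Fin d → ℚ) :=
    { toFun := fun x => (Ψ x).mulVec v0
      map_add' := fun x y => by rw [map_add, Matrix.add_mulVec]
      map_smul' := fun q x => by rw [map_smul, Matrix.smul_mulVec, RingHom.id_apply] }
  have hvec : ∀ x, vec x = (Ψ x).mulVec v0 := fun x => rfl
  have hvmul : ∀ x y, vec (x * y) = (Ψ x).mulVec (vec y) := by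
    intro x y
    rw [hvec, hvec, map_mul, Matrix.mulVec_mulVec]
  have hvinj : Function.Injective vec := by
    rw [injective_iff_map_eq_zero]
    intro x hx
    by_contra hx0
    apply hv0
    have h1 : vec (x⁻¹ * x) = 0 := by rw [hvmul, hx, Matrix.mulVec_zero]
    rw [inv_mul_cancel₀ hx0, hvec, map_one, Matrix.one_mulVec] at h1
    exact h1
  have hvsurj : Function.Surjective vec := by
    refine (LinearMap.injective_iff_surjective_of_finrank_eq_finrank ?_).mp hvinj
    rw [hK, finrank_fintype_fun_eq_card, Fintype.card_fin]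
  -- the forms as functionals on `K`
  let ψ : Fin d → K → ℝ := fun i x => ∑ j, g i j * ((vec x j : ℚ) : ℝ)
  have hψadd : ∀ i x y, ψ i (x + y) = ψ i x + ψ i y := by
    intro i x y
    simp only [ψ, map_add, Pi.add_apply, Rat.cast_add, mul_add, Finset.sum_add_distrib]
  have hψsmul : ∀ i (q : ℚ) x, ψ i (q • x) = (q : ℝ) * ψ i x := by
    intro i q x
    simp only [ψ, map_smul, Pi.smul_apply, smul_eq_mul, Rat.cast_mul, Finset.mul_sum]
    apply Finset.sum_congr rfl
    intro j _
    ring
  let phi : Fin d → (K →ₗ[ℚ] ℂ) := fun i =>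
    { toFun := fun x => ((ψ i x : ℝ) : ℂ)
      map_add' := fun x y => by rw [hψadd]; push_cast; rfl
      map_smul' := fun q x => by
        rw [hψsmul, RingHom.id_apply, Rat.smul_def]
        push_cast
        rfl }
  choose a ha' using fun i => coeff_exists (phi i)
  have ha : ∀ i x, lf K (a i) x = ((ψ i x : ℝ) : ℂ) := fun i x => ha' i x
  -- the coordinate vectors
  choose e he using fun j : Fin d => hvsurj (Pi.single j (1 : ℚ))
  have hψe : ∀ i j, ψ i (e j) = g i j := by
    intro i j
    simp only [ψ, he]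
    rw [Finset.sum_eq_single j]
    · simp
    · intro l _ hl
      simp [Pi.single_eq_of_ne hl]
    · intro h
      exact absurd (Finset.mem_univ j) h
  have hli : LinearIndependent ℂ a := by
    rw [Fintype.linearIndependent_iff]
    intro c hc
    have h1 : Matrix.vecMul c (g.map (Complex.ofRealHom : ℝ →+* ℂ)) = 0 := by
      funext j
      have h2 : lf K (∑ k, c k • a k) (e j) = 0 := by
        rw [hc]
        simp [lf]
      rw [lf_sum] at h2
      simp only [ha, hψe] at h2
      exact h2
    have h3 : (g.map (Complex.ofRealHom : ℝ →+* ℂ)).det ≠ 0 := by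
      rw [← RingHom.mapMatrix_apply, ← RingHom.map_det]
      simpa using hg
    have h4 := Matrix.eq_zero_of_vecMul_eq_zero h3 h1
    intro i
    exact congr_fun h4 i
  have hreal : ∀ i, ∀ x : 𝓞 K, (lf K (a i) (x : K)).im = 0 := by
    intro i x
    rw [ha, Complex.ofReal_im]
  -- lower bound
  obtain ⟨b, hb0, hb⟩ := common_denominator vec
  have hbpos : (0 : ℝ) < |(b : ℝ)| := abs_pos.mpr (by exact_mod_cast hb0)
  have hν : ∀ x : 𝓞 K, x ≠ 0 → ε / |(b : ℝ)| ^ d ≤ ‖∏ i, lf K (a i) (x : K)‖ := by
    intro x hx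
    obtain ⟨z, hz⟩ := hb x
    have hzR : ∀ j, (z j : ℝ) = (b : ℝ) * ((vec (x : K) j : ℚ) : ℝ) := by
      intro j
      have := hz j
      exact_mod_cast this.symm
    have hz0 : z ≠ 0 := by
      intro h
      apply hx
      have h1 : vec (x : K) = 0 := by
        funext j
        have h2 := hz j
        rw [h] at h2
        simpa [hb0] using h2
      have h2 : (x : K) = 0 := by
        apply hvinj
        rw [h1, map_zero]
      exact_mod_cast h2
    have h1 := hlow z hz0
    have h2 : ∏ i, ∑ j, g i j * (z j : ℝ) = (b : ℝ) ^ d * ∏ i, ψ i (x : K) := by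
      have h3 : ∀ i, ∑ j, g i j * (z j : ℝ) = (b : ℝ) * ψ i (x : K) := by
        intro i
        simp only [ψ, Finset.mul_sum]
        apply Finset.sum_congr rfl
        intro j _
        rw [hzR]
        ring
      simp only [h3]
      rw [Finset.prod_mul_distrib, Finset.prod_const, Finset.card_univ, Fintype.card_fin]
    rw [h2, abs_mul, abs_pow] at h1
    rw [div_le_iff₀ (by positivity)]
    simp only [ha]
    rw [← Complex.ofReal_prod, Complex.norm_real, Real.norm_eq_abs, mul_comm]
    exact h1
  -- the support of the block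
  let S : Finset (K →+* ℂ) := Finset.univ.filter fun σ => ∃ i ∈ I, a i σ ≠ 0
  have hS : ∀ σ, σ ∈ S ↔ ∃ i ∈ I, a i σ ≠ 0 := by
    intro σ
    simp [S]
  have hSI : I.card ≤ S.card := card_le_of_supported a hli I S (by
    intro i hi σ hσ
    by_contra h
    exact hσ ((hS σ).mpr ⟨i, hi, h⟩))
  -- the action of `θ`
  have hψθ : ∀ i x, ψ i (θ * x)
      = ∑ l, Matrix.vecMul (g i) ((Ψ θ).map (Rat.cast : ℚ → ℝ)) l * ((vec x l : ℚ) : ℝ) := by
    intro i x
    simp only [ψ, hvmul, Matrix.vecMul, Matrix.mulVec, dotProduct, Matrix.map_apply]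
    push_cast
    simp only [Finset.mul_sum, Finset.sum_mul]
    rw [Finset.sum_comm]
    apply Finset.sum_congr rfl
    intro l _
    apply Finset.sum_congr rfl
    intro j _
    ring
  have hstab : ∀ i ∈ I, (fun σ : K →+* ℂ => σ θ) * a i ∈ Submodule.span ℂ (a '' (I : Set (Fin d))) := by
    intro i hi
    have h1 := hinv i hi
    rw [Submodule.mem_span_image_finset_iff_exists_fun] at h1
    obtain ⟨r, hr⟩ := h1
    have h2 : (fun σ : K →+* ℂ => σ θ) * a i
        = ∑ k ∈ (Finset.univ : Finset I), ((r k : ℝ) : ℂ) • a k.1 := by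
      apply lf_ext
      intro x
      rw [lf_sum Finset.univ (fun k : I => ((r k : ℝ) : ℂ)) (fun k : I => a k.1)]
      have h3 : lf K ((fun σ : K →+* ℂ => σ θ) * a i) x = lf K (a i) (θ * x) := by
        simp only [lf, Pi.mul_apply, map_mul]
        apply Finset.sum_congr rfl
        intro σ _
        ring
      rw [h3, ha, hψθ, ← hr]
      simp only [ha]
      have h4 : ∑ l, (∑ k : I, r k • g k.1) l * ((vec x l : ℚ) : ℝ) = ∑ k : I, r k * ψ k.1 x := by
        simp only [Finset.sum_apply, Pi.smul_apply, smul_eq_mul, ψ, Finset.sum_mul, Finset.mul_sum]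
        rw [Finset.sum_comm]
        apply Finset.sum_congr rfl
        intro k _
        apply Finset.sum_congr rfl
        intro l _
        ring
      rw [h4]
      push_cast
      rfl
    rw [h2]
    apply Submodule.sum_mem
    intro k _
    exact Submodule.smul_mem _ _ (Submodule.subset_span ⟨k.1, k.2, rfl⟩)
  set W := Submodule.span ℂ (a '' (I : Set (Fin d))) with hW
  have hWst : ∀ v ∈ W, (fun σ : K →+* ℂ => σ θ) * v ∈ W := by
    intro v hv
    induction hv using Submodule.span_induction with
    | mem v hv =>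
      obtain ⟨i, hi, rfl⟩ := hv
      exact hstab i hi
    | zero => rw [mul_zero]; exact W.zero_mem
    | add v v' _ _ h h' => rw [mul_add]; exact W.add_mem h h'
    | smul c v _ h => rw [mul_smul_comm]; exact W.smul_mem c h
  have hsing : ∀ σ ∈ S, Pi.single σ (1 : ℂ) ∈ W := by
    intro σ hσ
    obtain ⟨i, hi, hne⟩ := (hS σ).mp hσ
    exact single_mem_of_stable W _ hθ hWst (a i) (Submodule.subset_span ⟨i, hi, rfl⟩) σ hne
  have hIS : S.card ≤ I.card := by
    have hfr : finrank ℂ W ≤ I.card := by
      have h1 := finrank_span_finset_le_card (R := ℂ) (I.image a)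
      rw [Finset.coe_image] at h1
      exact h1.trans Finset.card_image_le
    have hlis : LinearIndependent ℂ (fun σ : S => (⟨Pi.single σ.1 (1 : ℂ), hsing σ.1 σ.2⟩ : W)) := by
      apply LinearIndependent.of_comp W.subtype
      have h1 := (Pi.basisFun ℂ (K →+* ℂ)).linearIndependent.comp (fun σ : S => σ.1)
        Subtype.val_injective
      convert h1 using 1
      funext σ
      simp
    have h2 := hlis.fintype_card_le_finrank
    rw [Fintype.card_coe] at h2
    exact h2.trans hfr
  have hcard : I.card = S.card := le_antisymm hSI hIS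
  have hS0 : S.Nonempty := by
    rw [← Finset.card_pos, ← hcard]
    exact Finset.card_pos.mpr hI0
  have hS1 : S ≠ Finset.univ := by
    intro h
    apply hI1
    rw [← Finset.card_eq_iff_eq_univ, hcard, h, Finset.card_univ, Embeddings.card K ℂ, hK,
      Fintype.card_fin]
  have hprimS : ∀ u : K, (∀ φ ψ : K →+* ℂ, φ u = ψ u → φ ∈ S → ψ ∈ S) →
      Function.Injective (fun φ : K →+* ℂ => φ u) := by
    intro u hu
    refine prim_aux Ψ g hg I v0 ?_ a ?_ hli S hS ?_ hsing u hu hprim
    · intro w
      exact hvsurj w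
    · intro i x
      exact ha i x
    · intro σ hσ
      obtain ⟨i, hi, h⟩ := (hS σ).mp hσ
      refine (hS _).mpr ⟨i, hi, ?_⟩
      rw [coeff_conj K (a i) (hreal i) σ]
      exact (_root_.map_ne_zero _).mpr h
  have hpure := purity a I S (by rw [Fintype.card_fin, hK]) hcard hS0 hS1 hprimS
    (by rw [hK]; exact hd) hS hli hreal _ (by positivity) hν
  -- the unique embedding of each row
  have hex : ∀ i, ∃ σ, a i σ ≠ 0 := by
    intro i
    by_contra hcon
    push Not at hcon
    exact hli.ne_zero i (funext hcon)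
  choose f hf using hex
  have hzero : ∀ i σ, σ ≠ f i → a i σ = 0 := by
    intro i σ hσ
    by_contra h
    exact hσ (hpure i σ (f i) h (hf i))
  have hval : ∀ i x, ((ψ i x : ℝ) : ℂ) = a i (f i) * f i x := by
    intro i x
    rw [← ha]
    unfold lf
    rw [Finset.sum_eq_single (f i)]
    · intro σ _ hσ
      rw [hzero i σ hσ, zero_mul]
    · intro h
      exact absurd (Finset.mem_univ _) h
  have hψ1 : ∀ i, ψ i 1 ≠ 0 := by
    intro i h
    have h1 := hval i 1
    rw [h, map_one, mul_one] at h1
    exact hf i (by simpa using h1.symm)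
  let lam : Fin d → ℝ := fun i => ψ i θ / ψ i 1
  have hlam : ∀ i, ((lam i : ℝ) : ℂ) = f i θ := by
    intro i
    have h1 := hval i 1
    have h2 := hval i θ
    rw [map_one, mul_one] at h1
    simp only [lam]
    push_cast
    rw [h1, h2]
    have := hf i
    field_simp
  refine ⟨lam, ?_, ?_⟩
  · intro i k hik
    have h1 : f i = f k := by
      apply hθ
      change f i θ = f k θ
      rw [← hlam, ← hlam, hik]
    by_contra hne
    have h2 := card_le_of_supported a hli {i, k} {f i} (by
      intro m hm σ hσ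
      rw [Finset.mem_singleton] at hσ
      rw [Finset.mem_insert, Finset.mem_singleton] at hm
      rcases hm with rfl | rfl
      · exact hzero _ σ hσ
      · rw [h1] at hσ
        exact hzero _ σ hσ)
    rw [Finset.card_pair hne, Finset.card_singleton] at h2
    omega
  · intro i
    funext j
    have h1 : ψ i (θ * e j) = lam i * ψ i (e j) := by
      have h2 : ((ψ i (θ * e j) : ℝ) : ℂ) = ((lam i * ψ i (e j) : ℝ) : ℂ) := by
        push_cast
        rw [hval, hlam, hval i (e j), map_mul]
        ring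
      exact_mod_cast h2
    rw [hψθ, hψe, he] at h1
    rw [Finset.sum_eq_single j] at h1
    · simpa using h1
    · intro l _ hl
      simp [Pi.single_eq_of_ne hl]
    · intro h
      exact absurd (Finset.mem_univ j) h

end Pool.Agent.H46.Blk
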