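import Mathlib
import Pool.Agent.H46.Blk.MainK
import Pool.Agent.H46.CoprimeBlockProof

set_option autoImplicit false

namespace Pool.Agent.H46.Blk

open NumberField Module Polynomial

/-- If the matrix of multiplication by `w` has irreducible characteristic polynomial, then `w` has
distinct images under the embeddings. -/
theorem injective_of_irreducible {K : Type*} [Field K] [NumberField K] {d : ℕ}
    (hK : finrank ℚ K = d) (Ψ : K →ₐ[ℚ] Matrix (Fin d) (Fin d) ℚ) [Nonempty (Fin d)] (w : K)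
    (h : Irreducible (Ψ w).charpoly) : Function.Injective (fun σ : K →+* ℂ => σ w) := by
  have hΨ : Function.Injective Ψ := Ψ.toRingHom.injective
  have h0 : aeval w (Ψ w).charpoly = 0 := by
    apply hΨ
    rw [← Polynomial.aeval_algHom_apply, Matrix.aeval_self_charpoly, map_zero]
  have hint : IsIntegral ℚ w := Algebra.IsIntegral.isIntegral w
  have hmin : (Ψ w).charpoly = minpoly ℚ w := by
    apply minpoly.eq_of_irreducible_of_monic h h0 (Matrix.charpoly_monic _)
  have hdeg : (minpoly ℚ w).natDegree = finrank ℚ K := by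
    rw [← hmin, Matrix.charpoly_natDegree_eq_dim, Fintype.card_fin, hK]
  have htop : IntermediateField.adjoin ℚ {w} = ⊤ := by
    apply IntermediateField.eq_of_le_of_finrank_eq le_top
    rw [IntermediateField.adjoin.finrank hint, hdeg, IntermediateField.finrank_top']
  intro σ τ hστ
  have h1 : σ.toRatAlgHom = τ.toRatAlgHom :=
    (Field.primitive_element_iff_algHom_eq_of_eval ℚ ℂ (fun x => IsAlgClosed.splits _) w
      σ.toRatAlgHom).mp htop τ.toRatAlgHom hστ
  exact RingHom.ext fun x => AlgHom.congr_fun h1 x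

/-- A rational matrix has an integer multiple. -/
theorem exists_integer_multiple {d : ℕ} (M : Matrix (Fin d) (Fin d) ℚ) :
    ∃ (N : ℤ) (B : Matrix (Fin d) (Fin d) ℤ), N ≠ 0 ∧ B.map (Int.cast : ℤ → ℚ) = (N : ℚ) • M := by
  classical
  obtain ⟨b, hb⟩ := IsLocalization.exist_integer_multiples_of_finset (nonZeroDivisors ℤ) (S := ℚ)
    ((Finset.univ : Finset (Fin d × Fin d)).image fun p => M p.1 p.2)
  have h1 : ∀ i j, ∃ z : ℤ, (z : ℚ) = ((b : ℤ) : ℚ) * M i j := by
    intro i j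
    obtain ⟨z, hz⟩ := hb (M i j) (Finset.mem_image.mpr ⟨(i, j), Finset.mem_univ _, rfl⟩)
    refine ⟨z, ?_⟩
    rw [zsmul_eq_mul] at hz
    rw [← hz]
    rfl
  choose B hB using h1
  refine ⟨b, Matrix.of B, nonZeroDivisors.coe_ne_zero b, ?_⟩
  ext i j
  simp only [Matrix.map_apply, Matrix.of_apply, Matrix.smul_apply, smul_eq_mul]
  exact hB i j

/-- The theorem on invariant blocks, in terms of matrices. -/
theorem invariant_block (d : ℕ) (hd : 3 ≤ d) (g : Matrix (Fin d) (Fin d) ℝ) (hg : g.det ≠ 0)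
    (T : Matrix (Fin d) (Fin d) ℤ) (hT : Irreducible (T.map (Int.cast : ℤ → ℚ)).charpoly)
    (I : Finset (Fin d)) (hI0 : I.Nonempty) (hI1 : I ≠ Finset.univ)
    (hinv : ∀ i ∈ I, Matrix.vecMul (g i) (T.map (Int.cast : ℤ → ℝ))
        ∈ Submodule.span ℝ (g '' (I : Set (Fin d))))
    (hprim : ∀ (B : Matrix (Fin d) (Fin d) ℤ) (q : ℝ[X]), B * T = T * B →
      (∀ v : Fin d → ℝ, v ∈ Submodule.span ℝ (g '' (I : Set (Fin d))) ↔
        Matrix.vecMul v (aeval (B.map (Int.cast : ℤ → ℝ)) q) = 0) →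
      Irreducible (B.map (Int.cast : ℤ → ℚ)).charpoly)
    (ε : ℝ) (hε : 0 < ε) (hlow : ∀ x : Fin d → ℤ, x ≠ 0 → ε ≤ |∏ i, ∑ j, g i j * (x j : ℝ)|) :
    ∃ lam : Fin d → ℝ, Function.Injective lam ∧
      ∀ i, Matrix.vecMul (g i) (T.map (Int.cast : ℤ → ℝ)) = lam i • g i := by
  obtain ⟨K, _, _, Ψ, θ, hK, hΨ, hθ⟩ := field_of_matrix d _ hT
  have hne : Nonempty (Fin d) := ⟨⟨0, by omega⟩⟩
  have hcast : (Ψ θ).map (Rat.cast : ℚ → ℝ) = T.map (Int.cast : ℤ → ℝ) := by
    rw [hΨ]
    ext i j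
    simp
  have hmain := main_K d hd hK Ψ g hg I hI0 hI1 θ ?_ hθ (by rw [hcast]; exact hinv) ε hε hlow
  · rw [hcast] at hmain
    exact hmain
  · intro u q hq
    obtain ⟨N, B, hN, hB⟩ := exists_integer_multiple (Ψ u)
    have hB' : B.map (Int.cast : ℤ → ℚ) = Ψ ((N : ℚ) • u) := by rw [hB, map_smul]
    have hNR : (N : ℝ) ≠ 0 := by exact_mod_cast hN
    have hNQ : (N : ℚ) ≠ 0 := by exact_mod_cast hN
    have hcomm : B * T = T * B := by
      have h1 : (B * T).map (Int.cast : ℤ → ℚ) = (T * B).map (Int.cast : ℤ → ℚ) := by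
        have h2 : (B * T).map (Int.cast : ℤ → ℚ) = B.map (Int.cast : ℤ → ℚ) * T.map (Int.cast : ℤ → ℚ) :=
          Matrix.map_mul (f := Int.castRingHom ℚ)
        have h3 : (T * B).map (Int.cast : ℤ → ℚ) = T.map (Int.cast : ℤ → ℚ) * B.map (Int.cast : ℤ → ℚ) :=
          Matrix.map_mul (f := Int.castRingHom ℚ)
        rw [h2, h3, hB', ← hΨ, ← map_mul, ← map_mul, mul_comm]
      ext i j
      have h4 := congr_fun (congr_fun h1 i) j
      simp only [Matrix.map_apply] at h4
      exact_mod_cast h4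
    have hBR : B.map (Int.cast : ℤ → ℝ) = (N : ℝ) • (Ψ u).map (Rat.cast : ℚ → ℝ) := by
      ext i j
      have h4 := congr_fun (congr_fun hB i) j
      simp only [Matrix.map_apply, Matrix.smul_apply, smul_eq_mul] at h4 ⊢
      have h5 : ((B i j : ℚ) : ℝ) = (((N : ℚ) * Ψ u i j : ℚ) : ℝ) := by rw [h4]
      push_cast at h5
      exact h5
    have hpoly : aeval (B.map (Int.cast : ℤ → ℝ)) (q.comp (C (N : ℝ)⁻¹ * X))
        = aeval ((Ψ u).map (Rat.cast : ℚ → ℝ)) q := by
      rw [aeval_comp]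
      congr 1
      rw [map_mul, aeval_C, aeval_X, hBR, Algebra.algebraMap_eq_smul_one, smul_mul_assoc, one_mul,
        smul_smul, inv_mul_cancel₀ hNR, one_smul]
    have hirr := hprim B (q.comp (C (N : ℝ)⁻¹ * X)) hcomm (by
      intro v
      rw [hpoly]
      exact hq v)
    rw [hB'] at hirr
    have hinj := injective_of_irreducible hK Ψ _ hirr
    intro σ τ hστ
    apply hinj
    simp only at hστ ⊢
    rw [Rat.smul_def, map_mul, map_mul, hστ]
    simp

end Pool.Agent.H46.Blk
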